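import Pool.Agent.K1H73.SQB.Stm
import Pool.Agent.Y61.SQ.AVG

set_option autoImplicit false

/-! # Project SQB: the two error sums (by helper7; the proof is the first part of
`Pool.Agent.Y61.SQ.t_AVG`) -/

namespace Pool.Agent.K1H7.SQB

open Finset Filter Pool.Agent.Y862.SQ Pool.Agent.Y61.SQ Pool.Agent.K1H73.SQB

set_option maxHeartbeats 4000000 in
theorem t_ERR (hM : S_MERT) (h1 : S_FM) (h2 : S_COLL) : S_ERR := by
  intro K w1 η hK1 hη
  obtain ⟨k, hK⟩ : ∃ k : ℕ, K = k + 1 := ⟨K - 1, by omega⟩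
  obtain ⟨c, hc0, hc1, hc⟩ := V1_low hM
  obtain ⟨w0, hFM⟩ := h1
  obtain ⟨C, hC0, hC⟩ := h2 ((1 + 4 * K) ^ (K ^ 2) - 1)
  obtain ⟨δ, hδ⟩ : ∃ δ : ℝ, δ = min η 1 / 8 := ⟨_, rfl⟩
  have hδ0 : 0 < δ := by rw [hδ]; have := lt_min hη one_pos; positivity
  have hδη : 8 * δ ≤ η := by rw [hδ]; linarith [min_le_left η 1]
  have hδ1 : 8 * δ ≤ 1 := by rw [hδ]; linarith [min_le_right η 1]
  have hKf : (0 : ℝ) < K.factorial := by positivity
  obtain ⟨A, hA⟩ : ∃ A : ℝ, A = 4 * (K : ℝ) ^ 2 + 2 ^ K + 2 ^ K * C * K.factorial := ⟨_, rfl⟩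
  have hA0 : 0 ≤ A := by rw [hA]; positivity
  obtain ⟨w, hw0, hw3, hwA⟩ := exists_w A hA0 K c (δ / 2) hc0 (by positivity)
    (max (max w0 (4 * K + 2)) w1)
  have hww0 : w0 ≤ w := (le_max_left _ _).trans ((le_max_left _ _).trans hw0)
  have hwK : 4 * K + 2 ≤ w := (le_max_right _ _).trans ((le_max_left _ _).trans hw0)
  have hww1 : w1 ≤ w := (le_max_right _ _).trans hw0
  have hw1 : (1 : ℝ) ≤ w := by exact_mod_cast (by omega : 1 ≤ w)
  have hwpos : (0 : ℝ) < w := by linarith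
  -- the small quantity
  obtain ⟨x, hx⟩ : ∃ x : ℝ, x = (√(√(w : ℝ)))⁻¹ := ⟨_, rfl⟩
  have hss : 1 ≤ √(√(w : ℝ)) := by
    rw [Real.one_le_sqrt, Real.one_le_sqrt]
    exact hw1
  have hx0 : 0 < x := by rw [hx]; positivity
  have hx1 : x ≤ 1 := by rw [hx]; exact inv_le_one_of_one_le₀ hss
  have hx2 : x ^ 2 = (√(w : ℝ))⁻¹ := by
    rw [hx, inv_pow, Real.sq_sqrt (Real.sqrt_nonneg _)]
  have hx4 : (w : ℝ)⁻¹ = x ^ 4 := by
    have : x ^ 4 = (x ^ 2) ^ 2 := by ring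
    rw [this, hx2, inv_pow, Real.sq_sqrt hwpos.le]
  have hxw : (w : ℝ)⁻¹ ≤ x := by
    rw [hx4]
    calc x ^ 4 ≤ x ^ 1 := pow_le_pow_of_le_one hx0.le hx1 (by norm_num)
      _ = x := pow_one x
  rw [← hx] at hwA
  have hlog1 : 1 ≤ Real.log w := by
    rw [Real.le_log_iff_exp_le hwpos]
    have : (3 : ℝ) ≤ w := by exact_mod_cast hw3
    linarith [Real.exp_one_lt_d9]
  obtain ⟨V, hV⟩ : ∃ V : ℝ, V = V1 w := ⟨_, rfl⟩
  have hVpos : 0 < V := by rw [hV]; exact V1_pos w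
  have hcV : (c / Real.log w) ^ K ≤ V ^ K := by
    rw [hV]
    exact pow_le_pow_left₀ (by positivity) (hc w hw3) K
  have hc1' : (c / Real.log w) ^ K ≤ 1 := by
    apply pow_le_one₀ (by positivity)
    rw [div_le_one (by linarith)]
    linarith
  have hAV : A * x ≤ δ / 2 * V ^ K := hwA.trans (by gcongr)
  have hA1 : A * x ≤ δ / 2 := hwA.trans (mul_le_of_le_one_right (by positivity) hc1')
  have i1 : 4 * (K : ℝ) ^ 2 / w ≤ δ := by
    calc 4 * (K : ℝ) ^ 2 / w = 4 * (K : ℝ) ^ 2 * (w : ℝ)⁻¹ := div_eq_mul_inv _ _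
      _ ≤ A * x := by
          apply mul_le_mul _ hxw (by positivity) hA0
          rw [hA]
          have : (0 : ℝ) ≤ 2 ^ K + 2 ^ K * C * K.factorial := by positivity
          linarith
      _ ≤ δ := by linarith
  have i2 : 2 ^ K * x ≤ δ / 2 * V ^ K := by
    refine le_trans (mul_le_mul_of_nonneg_right ?_ hx0.le) hAV
    rw [hA]
    have : (0 : ℝ) ≤ 4 * (K : ℝ) ^ 2 + 2 ^ K * C * K.factorial := by positivity
    linarith
  have i3 : 2 ^ K * C / w ≤ δ * V ^ K / K.factorial := by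
    rw [le_div_iff₀ hKf]
    calc 2 ^ K * C / w * K.factorial = 2 ^ K * C * K.factorial * (w : ℝ)⁻¹ := by
          rw [div_eq_mul_inv]; ring
      _ ≤ A * x := by
          apply mul_le_mul _ hxw (by positivity) hA0
          rw [hA]
          have : (0 : ℝ) ≤ 4 * (K : ℝ) ^ 2 + 2 ^ K := by positivity
          linarith
      _ ≤ δ * V ^ K := by
          refine hAV.trans ?_
          gcongr
          linarith
  obtain ⟨T1, hT1⟩ := hFM w hww0
  obtain ⟨T3, hT3⟩ := exists_nat_ge (2 * (K : ℝ) ^ 2 / (δ * V ^ K))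
  refine ⟨w, T1 + T3 + K + 1, hww1, hwK, i1.trans (by linarith), ?_⟩
  intro T hT y hy
  have hTpos : (0 : ℝ) < T := by exact_mod_cast (by omega : 0 < T)
  have hFM' := hT1 T (by omega) y
  obtain ⟨F, hF⟩ : ∃ F : ℕ → ℝ, F = fun h => Ff w y h := ⟨_, rfl⟩
  have hF0 : ∀ h, 0 ≤ F h := by intro h; rw [hF]; exact Ff_nonneg w y h
  have hFM2 : ∑ h ∈ Icc 1 T, (F h - 1) ^ 2 ≤ T * x ^ 2 := by
    rw [hF, hx2, ← div_eq_mul_inv]
    exact hFM'
  have hG : ∑ h ∈ Icc 1 T, |F h - 1| ≤ T * x := by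
    apply le_of_sq_le_sq _ (by positivity)
    have e1 := sq_sum_le_card_mul_sum_sq (s := Icc 1 T) (f := fun h => |F h - 1|)
    simp only [sq_abs, Nat.card_Icc, Nat.add_sub_cancel] at e1
    calc _ ≤ (T : ℝ) * ∑ h ∈ Icc 1 T, (F h - 1) ^ 2 := e1
      _ ≤ T * (T * x ^ 2) := by gcongr
      _ = _ := by ring
  have hTT : (T : ℝ) * x ≤ T := mul_le_of_le_one_right hTpos.le hx1
  have hS : ∑ h ∈ Icc 1 T, F h ≤ 2 * T := by
    have e1 : ∑ h ∈ Icc 1 T, F h ≤ ∑ h ∈ Icc 1 T, (|F h - 1| + 1) :=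
      sum_le_sum fun h _ => by linarith [le_abs_self (F h - 1)]
    rw [sum_add_distrib] at e1
    simp only [sum_const, Nat.card_Icc, Nat.add_sub_cancel, nsmul_eq_mul, mul_one] at e1
    linarith
  have hS2 : ∑ h ∈ Icc 1 T, F h ^ 2 ≤ 4 * T := by
    have e1 : ∑ h ∈ Icc 1 T, F h ^ 2 ≤ ∑ h ∈ Icc 1 T, (2 * (F h - 1) ^ 2 + 2) :=
      sum_le_sum fun h _ => sq_le_two (F h)
    rw [sum_add_distrib, ← mul_sum] at e1
    simp only [sum_const, Nat.card_Icc, Nat.add_sub_cancel, nsmul_eq_mul] at e1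
    have : (T : ℝ) * x ^ 2 ≤ T := mul_le_of_le_one_right hTpos.le (pow_le_one₀ hx0.le hx1)
    linarith
  obtain ⟨M, hMd⟩ : ∃ M : ℝ, M = (T * V) ^ K / K.factorial := ⟨_, rfl⟩
  have hM0 : 0 < M := by rw [hMd]; positivity
  have hMe : (T : ℝ) ^ K / K.factorial * V ^ K = M := by rw [hMd, mul_pow]; ring
  obtain ⟨S1, hS1⟩ : ∃ S1 : ℝ, S1 = ∑ H ∈ powersetCard K (Icc 1 T), |∏ h ∈ H, F h - 1| := ⟨_, rfl⟩
  have hS1le : S1 ≤ δ * M := by
    rw [hS1]
    refine (err_one K T (by omega) (by omega) F x hx0.le hx1 hG).trans ?_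
    rw [← hMe]
    have e1 : (K : ℝ) ^ 2 / T ≤ δ / 2 * V ^ K := by
      have e2 : (T3 : ℝ) ≤ T := by exact_mod_cast (by omega : T3 ≤ T)
      have e3 := hT3.trans e2
      rw [div_le_iff₀ (by positivity)] at e3
      rw [div_le_iff₀ hTpos]
      linarith
    calc _ ≤ (T : ℝ) ^ K / K.factorial * (δ / 2 * V ^ K + δ / 2 * V ^ K) := by gcongr
      _ = _ := by ring
  obtain ⟨d, hd⟩ : ∃ d : ℕ → ℝ, d = fun t => Dd ((1 + 4 * K) ^ (K ^ 2) - 1) w t - 1 := ⟨_, rfl⟩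
  have hd0 : ∀ t, 0 ≤ d t := by intro t; rw [hd]; exact Dd_ge _ _ _
  have hds : ∑ t ∈ Icc 1 T, d t ≤ C * T / w := by rw [hd]; exact hC w T (by omega)
  obtain ⟨S2, hS2d⟩ : ∃ S2 : ℝ, S2 = ∑ H ∈ powersetCard K (Icc 1 T),
    (∏ h ∈ H, F h) * ∑ z ∈ prs H, d (z.2 - z.1) := ⟨_, rfl⟩
  have hS2le : S2 ≤ δ * M := by
    have e1 : S2 ≤ (T : ℝ) ^ K * (2 ^ K * C / w) := by
      rcases k with _ | k
      · rw [hS2d, hK, err_two_one]
        positivity
      · have hK' : K = k + 2 := by omega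
        rw [hS2d, hK']
        refine (err_two k T F d hF0 hd0).trans ?_
        calc _ ≤ (2 * (T : ℝ)) ^ k * ((4 * T) * (C * T / w)) := by
              refine mul_le_mul (pow_le_pow_left₀ (sum_nonneg fun t _ => hF0 t) hS k)
                (mul_le_mul hS2 hds (sum_nonneg fun t _ => hd0 t) (by positivity))
                (mul_nonneg (sum_nonneg fun t _ => sq_nonneg _) (sum_nonneg fun t _ => hd0 t))
                (by positivity)
          _ = _ := by ring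
    refine e1.trans ?_
    rw [← hMe]
    calc _ ≤ (T : ℝ) ^ K * (δ * V ^ K / K.factorial) := by gcongr
      _ = _ := by ring
  have hfac : (1 : ℝ) ≤ K.factorial := by exact_mod_cast Nat.succ_le_of_lt K.factorial_pos
  have hMle : M ≤ (T * V) ^ K := by
    rw [hMd]
    exact div_le_self (by positivity) hfac
  have hfin : δ * M ≤ η * (T * V1 w) ^ K := by
    rw [← hV]
    exact mul_le_mul (by linarith) hMle hM0.le hη.le
  constructor
  · rw [hS1, hF] at hS1le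
    exact hS1le.trans hfin
  · rw [hS2d, hF, hd] at hS2le
    exact hS2le.trans hfin

end Pool.Agent.K1H7.SQB
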